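import Pool.Agent.R696.Tor.Eval
set_option autoImplicit false

/-! The free alternative ring on at least six generators has 3-torsion. -/

namespace Pool.Agent.Results.MP_2692c1_al.Torsion3
open Pool.Agent.Helper928.Nuc.Free Pool.Agent.Helper928.Nuc.Alt Pool.Agent.Helper928.Nuc.Tens
open Pool.Agent.R696.Tor.Mult Pool.Agent.R696.Tor.Eval Pool.Agent.R696.Tor.Tab Pool.Agent.R696.Tor.Mod

section
variable {Φ : Type} [CommRing Φ] {K : Type} [CommRing K] [Algebra Φ K]

instance instModM : Module Φ (M K) := inferInstanceAs (Module Φ (Fin 49 → K))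

lemma smul_eq (r : Φ) (v : M K) : r • v = (algebraMap Φ K r) • v := by
  funext k
  show r • (v k) = algebraMap Φ K r * v k
  rw [Algebra.smul_def]

instance : IsScalarTower Φ (M K) (M K) := ⟨by
  intro r v w
  rw [smul_eq_mul, smul_eq_mul, smul_eq r v, smul_eq r (v * w)]
  exact TA.smul_mul' _ _ _⟩

instance : SMulCommClass Φ (M K) (M K) := ⟨by
  intro r v w
  rw [smul_eq_mul, smul_eq_mul, smul_eq r w, smul_eq r (v * w)]
  exact (TA.mul_smul' _ _ _).symm⟩

end

/-- torsion -/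
theorem torsion (Φ : Type) [CommRing Φ] (X : Type) (hΦ : ¬ IsUnit (3 : Φ)) (e : Fin 6 ↪ X) :
    ∃ f : FreeAlt Φ X, f ≠ 0 ∧ (3 : Φ) • f = 0 := by
  classical
  let K : Type := Φ ⧸ Ideal.span {(3 : Φ)}
  have hK : Nontrivial K := by
    rw [Ideal.Quotient.nontrivial_iff]
    intro h
    exact hΦ (Ideal.span_singleton_eq_top.mp h)
  have h3 : (3 : K) = 0 := by
    have h : (Ideal.Quotient.mk (Ideal.span {(3 : Φ)})) 3 = 0 :=
      Ideal.Quotient.eq_zero_iff_mem.mpr (Ideal.mem_span_singleton_self _)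
    rwa [map_ofNat] at h
  have hM : ∀ a b : M K, (a * a) * b = a * (a * b) ∧ (b * a) * a = b * (a * a) :=
    fun a b => ⟨(isAltM h3).left a b, (isAltM h3).right a b⟩
  let φ : FreeAlt Φ X →ₙₐ[Φ] M K := FreeAlt.lift hM (Function.extend e (fun j => gM K j.1) (fun _ => 0))
  let g : ℕ → FreeAlt Φ X := fun i => FreeAlt.gen (e (Fin.ofNat 6 i))
  have hφ : ∀ i, φ (g i) = gM K i := by
    intro i
    show FreeAlt.lift hM _ (FreeAlt.gen _) = _
    rw [FreeAlt.lift_gen, e.injective.extend_apply]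
    show TA.e ((i % 6) % 6) = TA.e (i % 6)
    rw [Nat.mod_mod]
  refine ⟨G g, ?_, ?_⟩
  · intro h
    have h1 : (NonUnitalRingHomClass.toNonUnitalRingHom φ) (G g) = 0 := by rw [h]; exact map_zero _
    rw [G_map] at h1
    have h2 : (fun i => (NonUnitalRingHomClass.toNonUnitalRingHom φ) (g i)) = gM K := funext hφ
    rw [h2] at h1
    exact G_ne h3 h1
  · have h := three_G (A := FreeAlt Φ X) freeAlt_isAlt g
    rw [← Nat.cast_smul_eq_nsmul Φ] at h
    exact_mod_cast h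

/-- a module with an element killed by a nonzerodivisor is not free -/
theorem not_free (Φ : Type) [CommRing Φ] (M : Type) [AddCommGroup M] [Module Φ M] (r : Φ) (hr : r ∈ nonZeroDivisors Φ)
    (f : M) (hf : f ≠ 0) (h : r • f = 0) : ¬ Module.Free Φ M := by
  intro hfree
  apply hf
  let b := Module.Free.chooseBasis Φ M
  apply b.repr.injective
  rw [map_zero]
  ext i
  have h1 : b.repr (r • f) i = 0 := by rw [h]; simp
  rw [map_smul, Finsupp.smul_apply, smul_eq_mul] at h1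
  simpa using (mul_left_mem_nonZeroDivisors_eq_zero_iff hr).mp h1

/-- Let `X` have at least six elements. If `3` is not invertible in `Φ`, then the free alternative `Φ`-algebra on `X`
has a nonzero element `f` with `3 f = 0`; if moreover `3` is not a zero divisor in `Φ`, then it is not a free
`Φ`-module. In particular the additive group of the free alternative ring on countably many generators has elements
of order 3 and is not free. -/
theorem result :
    (∀ (Φ : Type) [CommRing Φ] (X : Type), ¬ IsUnit (3 : Φ) → Nonempty (Fin 6 ↪ X) →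
      ∃ f : FreeAlt Φ X, f ≠ 0 ∧ (3 : Φ) • f = 0) ∧
    (∀ (Φ : Type) [CommRing Φ] (X : Type), ¬ IsUnit (3 : Φ) → (3 : Φ) ∈ nonZeroDivisors Φ → Nonempty (Fin 6 ↪ X) →
      ¬ Module.Free Φ (FreeAlt Φ X)) ∧
    (∃ f : FreeAlt ℤ ℕ, f ≠ 0 ∧ (3 : ℤ) • f = 0) ∧ ¬ Module.Free ℤ (FreeAlt ℤ ℕ) := by
  have h1 : ∀ (Φ : Type) [CommRing Φ] (X : Type), ¬ IsUnit (3 : Φ) → Nonempty (Fin 6 ↪ X) →
      ∃ f : FreeAlt Φ X, f ≠ 0 ∧ (3 : Φ) • f = 0 := fun Φ _ X h ⟨e⟩ => torsion Φ X h e
  have h2 : ∀ (Φ : Type) [CommRing Φ] (X : Type), ¬ IsUnit (3 : Φ) → (3 : Φ) ∈ nonZeroDivisors Φ →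
      Nonempty (Fin 6 ↪ X) → ¬ Module.Free Φ (FreeAlt Φ X) := by
    intro Φ _ X h hz he
    obtain ⟨f, hf, h3⟩ := h1 Φ X h he
    exact not_free Φ _ 3 hz f hf h3
  have hu : ¬ IsUnit (3 : ℤ) := by
    rw [Int.isUnit_iff]; omega
  have he : Nonempty (Fin 6 ↪ ℕ) := ⟨Fin.valEmbedding⟩
  refine ⟨h1, h2, h1 ℤ ℕ hu he, h2 ℤ ℕ hu ?_ he⟩
  exact mem_nonZeroDivisors_of_ne_zero (by norm_num)

end Pool.Agent.Results.MP_2692c1_al.Torsion3
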